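import Pool.Agent.Helper79.LG.Goals
import Pool.Agent.Helper99.IG.MONO

/-!
# Project LG (MP_d01c92_ag), packet LG-MINOR: minors of the points of a stable set
-/

open scoped BigOperators

universe u v

namespace Pool.Agent.Helper64.LG

open Pool.Agent.Helper64.IG Pool.Agent.Helper79.LG

/-- two injective maps into a finite type differ by a permutation -/
lemma exists_perm {X E : Type*} [Fintype E] [DecidableEq E] {f g : X → E}
    (hf : Function.Injective f) (hg : Function.Injective g) :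
    ∃ s : Equiv.Perm E, ∀ x, s (f x) = g x := by
  classical
  let e : {x // x ∈ Set.range f} ≃ {x // x ∈ Set.range g} :=
    (Equiv.ofInjective f hf).symm.trans (Equiv.ofInjective g hg)
  refine ⟨e.extendSubtype, fun x => ?_⟩
  rw [Equiv.extendSubtype_apply_of_mem e (f x) ⟨x, rfl⟩]
  have h : (Equiv.ofInjective f hf).symm ⟨f x, ⟨x, rfl⟩⟩ = x :=
    Equiv.ofInjective_symm_apply hf x
  change ((Equiv.ofInjective g hg) ((Equiv.ofInjective f hf).symm ⟨f x, ⟨x, rfl⟩⟩) : E) = g x
  rw [h]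
  rfl

/-- restriction data, uniform in the point -/
def RSU (K : Type u) [Field K] (n p m q : ℕ) (hn : n ≤ m) (hp : p ≤ q) : Prop :=
  ∃ (J : Fin p → Fin q) (S : Fin q → Ix m q), Function.Injective J ∧
    (∀ k, k ∉ Set.range J → S k ∉ Set.range (inc hn hp)) ∧
    (∀ k, k ∉ Set.range J → ∀ k', k' ∉ Set.range J → S k = S k' → k = k') ∧
    ∀ (x : Pt K) (a : Fin p → Ix n p),
      x.x n p a = x.x m q (Function.extend J (inc hn hp ∘ a) S)

lemma inc_inc {n p m q m' q' : ℕ} (hn : n ≤ m) (hp : p ≤ q) (hn' : m ≤ m') (hp' : q ≤ q')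
    (z : Ix n p) : inc hn' hp' (inc hn hp z) = inc (hn.trans hn') (hp.trans hp') z := by
  cases z <;> rfl

lemma RSU.comp {K : Type u} [Field K] {n p m q m' q' : ℕ} {hn : n ≤ m} {hp : p ≤ q}
    {hn' : m ≤ m'} {hp' : q ≤ q'} (h : RSU K n p m q hn hp) (h' : RSU K m q m' q' hn' hp') :
    RSU K n p m' q' (hn.trans hn') (hp.trans hp') := by
  classical
  obtain ⟨J, S, hJ, h1, h2, h3⟩ := h
  obtain ⟨J', S', hJ', h1', h2', h3'⟩ := h'
  have hr : ∀ l, J' l ∉ Set.range (J' ∘ J) → l ∉ Set.range J := by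
    rintro l hl ⟨i, rfl⟩
    exact hl ⟨i, rfl⟩
  have hr' : ∀ k, k ∉ Set.range J' → k ∉ Set.range (J' ∘ J) := by
    rintro k hk ⟨i, rfl⟩
    exact hk ⟨J i, rfl⟩
  have e1 : ∀ l, Function.extend J' (inc hn' hp' ∘ S) S' (J' l) = inc hn' hp' (S l) := by
    intro l
    rw [hJ'.extend_apply]
    rfl
  have e2 : ∀ k, k ∉ Set.range J' → Function.extend J' (inc hn' hp' ∘ S) S' k = S' k := by
    intro k hk
    exact Function.extend_apply' _ _ _ (fun ⟨a, ha⟩ => hk ⟨a, ha⟩)
  refine ⟨J' ∘ J, Function.extend J' (inc hn' hp' ∘ S) S', hJ'.comp hJ, ?_, ?_, ?_⟩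
  · rintro k hk ⟨z, hz⟩
    by_cases hk' : k ∈ Set.range J'
    · obtain ⟨l, rfl⟩ := hk'
      rw [e1, ← inc_inc hn hp hn' hp'] at hz
      exact h1 l (hr l hk) ⟨z, Pool.Agent.Helper64.IG.PkMONO.inc_inj hn' hp' hz⟩
    · rw [e2 k hk', ← inc_inc hn hp hn' hp'] at hz
      exact h1' k hk' ⟨_, hz⟩
  · intro k hk k' hk' hS
    by_cases c : k ∈ Set.range J' <;> by_cases c' : k' ∈ Set.range J'
    · obtain ⟨l, rfl⟩ := c
      obtain ⟨l', rfl⟩ := c'
      rw [e1, e1] at hS
      rw [h2 l (hr l hk) l' (hr l' hk') (Pool.Agent.Helper64.IG.PkMONO.inc_inj hn' hp' hS)]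
    · obtain ⟨l, rfl⟩ := c
      rw [e1, e2 k' c'] at hS
      exact absurd ⟨_, hS⟩ (h1' k' c')
    · obtain ⟨l', rfl⟩ := c'
      rw [e1, e2 k c] at hS
      exact absurd ⟨_, hS.symm⟩ (h1' k c)
    · rw [e2 k c, e2 k' c'] at hS
      exact h2' k c k' c' hS
  · intro x a
    rw [h3 x a, h3' x]
    congr 1
    funext k
    by_cases c : k ∈ Set.range J'
    · obtain ⟨l, rfl⟩ := c
      rw [hJ'.extend_apply]
      by_cases d : l ∈ Set.range J
      · obtain ⟨i, rfl⟩ := d
        rw [Function.comp_apply, hJ.extend_apply]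
        have := (hJ'.comp hJ).extend_apply (inc (hn.trans hn') (hp.trans hp') ∘ a)
          (Function.extend J' (inc hn' hp' ∘ S) S') i
        rw [Function.comp_apply] at this
        rw [this, Function.comp_apply, Function.comp_apply, inc_inc]
      · rw [Function.comp_apply, Function.extend_apply' _ _ _ (fun ⟨a, ha⟩ => d ⟨a, ha⟩)]
        have hk : J' l ∉ Set.range (J' ∘ J) := by
          rintro ⟨i, hi⟩
          exact d ⟨i, hJ' hi⟩
        rw [Function.extend_apply' _ _ _ (fun ⟨a, ha⟩ => hk ⟨a, ha⟩), e1]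
    · have hk := hr' k c
      rw [Function.extend_apply' _ _ _ (fun ⟨a, ha⟩ => c ⟨a, ha⟩),
        Function.extend_apply' _ _ _ (fun ⟨a, ha⟩ => hk ⟨a, ha⟩), e2 k c]

lemma RSU.refl (K : Type u) [Field K] (n p : ℕ) : RSU K n p n p le_rfl le_rfl := by
  refine ⟨id, fun k => Sum.inr k, Function.injective_id, ?_, ?_, ?_⟩
  · intro k hk
    exact absurd ⟨k, rfl⟩ hk
  · intro k hk
    exact absurd ⟨k, rfl⟩ hk
  · intro x a
    congr 1
    funext k
    have := Function.injective_id.extend_apply (inc (le_refl n) (le_refl p) ∘ a)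
      (fun k => Sum.inr k) k
    rw [id] at this
    rw [this, Function.comp_apply, Pool.Agent.Helper64.IG.PkMONO.inc_self]

lemma RSU.xi (K : Type u) [Field K] (n p : ℕ) : RSU K n p (n + 1) p (Nat.le_succ n) le_rfl := by
  refine ⟨id, fun k => Sum.inr k, Function.injective_id, ?_, ?_, ?_⟩
  · intro k hk
    exact absurd ⟨k, rfl⟩ hk
  · intro k hk
    exact absurd ⟨k, rfl⟩ hk
  · intro x a
    rw [← x.xi_eq n p]
    unfold Pool.Agent.Helper64.IG.xi
    congr 1
    funext k
    have := Function.injective_id.extend_apply (inc (Nat.le_succ n) (le_refl p) ∘ a)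
      (fun k => Sum.inr k) k
    rw [id] at this
    rw [this]

lemma RSU.theta (K : Type u) [Field K] (n p : ℕ) :
    RSU K n p n (p + 1) le_rfl (Nat.le_succ p) := by
  refine ⟨Fin.succ, fun _ => Sum.inr (Fin.last p), Fin.succ_injective p, ?_, ?_, ?_⟩
  · rintro k _ ⟨z, hz⟩
    cases z with
    | inl i => cases hz
    | inr j =>
      have h1 : inc (le_refl n) (Nat.le_succ p) (Sum.inr j : Ix n p) = Sum.inr j.castSucc := rfl
      rw [h1] at hz
      exact Fin.castSucc_ne_last j (Sum.inr_injective hz)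
  · intro k hk k' hk' _
    have : ∀ k : Fin (p + 1), k ∉ Set.range (Fin.succ : Fin p → Fin (p + 1)) → k = 0 := by
      intro k hk
      by_contra h
      exact hk ⟨k.pred h, Fin.succ_pred k h⟩
    rw [this k hk, this k' hk']
  · intro x a
    rw [← x.theta_eq n p]
    unfold Pool.Agent.Helper64.IG.theta
    congr 1
    funext k
    refine Fin.cases ?_ (fun i => ?_) k
    · rw [Fin.cons_zero, Function.extend_apply' _ _ _ (fun ⟨a, ha⟩ => Fin.succ_ne_zero a ha)]
    · rw [Fin.cons_succ, (Fin.succ_injective p).extend_apply]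

lemma RSU.all (K : Type u) [Field K] (n p m q : ℕ) (hn : n ≤ m) (hp : p ≤ q) :
    RSU K n p m q hn hp := by
  have h1 : RSU K n p m p hn le_rfl := by
    induction m, hn using Nat.le_induction with
    | base => exact RSU.refl K n p
    | succ m hm ih => exact ih.comp (RSU.xi K m p)
  have h2 : RSU K m p m q le_rfl hp := by
    induction q, hp using Nat.le_induction with
    | base => exact RSU.refl K m p
    | succ q hq ih => exact ih.comp (RSU.theta K m q)
  exact h1.comp h2

/-- **LG-MINOR** -/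
theorem minor' : G_MONO.{u} → G_MINOR.{u} := by
  classical
  intro hM K _ C hC x hx n p n₀ p₀ hn B I τ hB hI hτ hd
  have hp : p₀ ≤ p := by
    have := Fintype.card_le_of_injective I hI
    simpa using this
  obtain ⟨J, S, hJ, h1, h2, h3⟩ := RSU.all K n₀ p₀ n p hn hp
  obtain ⟨π, hπ⟩ := exists_perm hJ hI
  have hπ' : ∀ k, k ∉ Set.range J → π k ∉ Set.range I := by
    rintro k hk ⟨i, hi⟩
    rw [← hπ i] at hi
    exact hk ⟨i, π.injective hi⟩
  have hf : Function.Injective (Sum.elim (inc hn hp) (fun k : {k // k ∉ Set.range J} => S k)) := by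
    refine Function.Injective.sumElim (Pool.Agent.Helper64.IG.PkMONO.inc_inj hn hp) ?_ ?_
    · intro k k' h
      exact Subtype.ext (h2 k k.2 k' k'.2 h)
    · intro z k h
      exact h1 k k.2 ⟨z, h⟩
  have hg : Function.Injective (Sum.elim τ (fun k : {k // k ∉ Set.range J} => B (π k))) := by
    refine Function.Injective.sumElim hτ ?_ ?_
    · intro k k' h
      exact Subtype.ext (π.injective (hB h))
    · intro z k h
      exact hd (π k) (hπ' k k.2) ⟨z, h⟩
  obtain ⟨σ, hσ⟩ := exists_perm hf hg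
  obtain ⟨y, hyC, hy⟩ := hM K C hC x hx n p σ (fun _ => 1) (fun _ => Or.inl rfl)
  refine ⟨y, hyC, ((Equiv.Perm.sign π : ℤ) : K),
    Pool.Agent.Helper64.IG.PkMONO.pm_sign π, fun a => ?_⟩
  rw [h3 y a, hy]
  have hprod : (∏ _j : Fin p, (1 : K)) = 1 := by simp
  rw [hprod, one_mul]
  have hfun : σ ∘ Function.extend J (inc hn hp ∘ a) S = Function.extend I (τ ∘ a) B ∘ π := by
    funext k
    rw [Function.comp_apply, Function.comp_apply]
    by_cases c : k ∈ Set.range J
    · obtain ⟨i, rfl⟩ := c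
      rw [hJ.extend_apply, hπ, hI.extend_apply]
      exact hσ (Sum.inl (a i))
    · rw [Function.extend_apply' _ _ _ (fun ⟨a, ha⟩ => c ⟨a, ha⟩),
        Function.extend_apply' _ _ _ (fun ⟨a, ha⟩ => hπ' k c ⟨a, ha⟩)]
      exact hσ (Sum.inr ⟨k, c⟩)
  rw [hfun]
  obtain ⟨c, φ, hφ⟩ := x.dec n p
  rw [hφ, hφ]
  have hdet := Matrix.det_permute' π
    (Matrix.of fun i j => φ i (Function.extend I (τ ∘ a) B j))
  have e1 : Matrix.det (fun i j => φ i ((Function.extend I (τ ∘ a) B ∘ π) j)) =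
      ((Equiv.Perm.sign π : ℤ) : K) *
        Matrix.det (fun i j => φ i (Function.extend I (τ ∘ a) B j)) := hdet
  rw [e1]
  ring

/-- **LG-MINOR** with the hypotheses of the packet -/
theorem minor : G_RS.{u} → G_MONO.{u} → G_MINOR.{u} := fun _ h => minor' h

end Pool.Agent.Helper64.LG
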